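import Pool.Agent.H58.T1.S1

/-!
# T1, module GRD: the size of a principal ideal
-/

set_option autoImplicit false

namespace Pool.T1

open Polynomial Pool.HYP Pool.TOW Pool.AVS IsDedekindDomain

namespace GRDaux

section Gen

variable {R : Type} [CommRing R] [IsDedekindDomain R] {K : Type} [Field K] [Algebra R K]
  [IsFractionRing R K] {O : ValuationSubring K} {π : K}

private theorem zpow_mem (h : π ∈ O) {n : ℤ} (hn : 0 ≤ n) : π ^ n ∈ O := by
  obtain ⟨k, rfl⟩ := Int.eq_ofNat_of_zero_le hn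
  rw [zpow_natCast]
  exact pow_mem h k

private theorem mono (hG : GR R O π) {m m' : ℤ} (h : m ≤ m') {a : R} (ha : a ∈ Lm R O π m) :
    a ∈ Lm R O π m' := by
  have e : algebraMap R K a * π ^ m' = (algebraMap R K a * π ^ m) * π ^ (m' - m) := by
    rw [mul_assoc, ← zpow_add₀ hG.pi_ne]; congr 2; ring
  show _ ∈ O
  rw [e]
  exact mul_mem ha (zpow_mem hG.pi_mem (by omega))

private theorem order (hG : GR R O π) (a : R) (ha : a ≠ 0) : ∃ n : ℕ,
    algebraMap R K a * π ^ n ∈ O ∧ (algebraMap R K a * π ^ n)⁻¹ ∈ O ∧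
    ∀ m : ℤ, a ∈ Lm R O π m ↔ (n : ℤ) ≤ m := by
  have ha' : algebraMap R K a ≠ 0 := by
    rw [Ne, FaithfulSMul.algebraMap_eq_zero_iff]; exact ha
  obtain ⟨k, h1, h2⟩ := hG.val _ ha'
  have e : algebraMap R K a / π ^ k = algebraMap R K a * π ^ (-k) := by
    rw [zpow_neg, div_eq_mul_inv]
  rw [e] at h1 h2
  have key : ∀ m : ℤ, a ∈ Lm R O π m ↔ -k ≤ m := by
    intro m
    constructor
    · intro hm
      by_contra hlt
      push Not at hlt
      have h3 : (algebraMap R K a * π ^ (-k))⁻¹ * (algebraMap R K a * π ^ m) ∈ O :=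
        mul_mem h2 hm
      have e3 : (algebraMap R K a * π ^ (-k))⁻¹ * (algebraMap R K a * π ^ m) = π ^ (m + k) := by
        rw [mul_inv, zpow_neg, inv_inv, zpow_add₀ hG.pi_ne]
        field_simp
      rw [e3] at h3
      have h4 : π ^ (m + k) * π ^ (-(m + k) - 1) ∈ O :=
        mul_mem h3 (zpow_mem hG.pi_mem (by omega))
      rw [← zpow_add₀ hG.pi_ne] at h4
      have e4 : m + k + (-(m + k) - 1) = -1 := by ring
      rw [e4, zpow_neg_one] at h4
      exact hG.pi_inv h4
    · intro hm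
      exact mono hG hm h1
  have hk : 0 ≤ -k := by
    by_contra hlt
    push Not at hlt
    exact ha (hG.small a ((key (-1)).mpr (by omega)))
  obtain ⟨n, hn⟩ := Int.eq_ofNat_of_zero_le hk
  rw [hn] at h1 h2
  refine ⟨n, ?_, ?_, fun m => ?_⟩
  · simpa using h1
  · simpa using h2
  · rw [key m, hn]

/-- `L(m)` as a group. -/
private def Lg (hG : GR R O π) (m : ℤ) : AddSubgroup R where
  carrier := Lm R O π m
  zero_mem' := by
    show _ ∈ O
    rw [map_zero, zero_mul]; exact zero_mem O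
  add_mem' := by
    intro a b ha hb
    show _ ∈ O
    rw [map_add, add_mul]; exact add_mem ha hb
  neg_mem' := by
    intro a ha
    show _ ∈ O
    rw [map_neg, neg_mul]; exact neg_mem ha

private theorem LI_top (m : ℤ) : LI R O π ⊤ m = Lm R O π m := by
  ext a
  simp [LI]

end Gen

end GRDaux

open GRDaux in
/-- GRD. -/
theorem grd (hA : GRAStmt) (hS : STPStmt) (hF : FULStmt) (hC : FUCStmt) : GRDStmt := by
  intro R _ _ K _ _ _ O π hG a ha
  obtain ⟨n, h1, h2, h3⟩ := order hG a ha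
  refine ⟨n, h1, h2, ?_, h3⟩
  obtain ⟨hq, hfin, -, ⟨c, hc⟩, hall⟩ := hA R K O π hG
  have hS' := hS R K O π hG
  -- an element with a pole
  obtain ⟨t, s, hs, ht0, ht1, ht2⟩ : ∃ (t : R) (s : ℕ), 1 ≤ s ∧ t ≠ 0 ∧
      algebraMap R K t * π ^ s ∈ O ∧ (algebraMap R K t * π ^ s)⁻¹ ∈ O := by
    by_contra hno
    push Not at hno
    have hsub : ∀ m : ℕ, Lm R O π (m : ℤ) ⊆ Lm R O π 0 := by
      intro m t ht
      by_cases h0 : t = 0
      · rw [h0]; exact (Lg hG 0).zero_mem
      obtain ⟨s, g1, g2, g3⟩ := order hG t h0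
      rcases Nat.eq_zero_or_pos s with h | h
      · rw [g3]; simp [h]
      · exact absurd g2 (hno t s h h0 g1)
    have hle : ∀ m : ℕ, (Lm R O π (m : ℤ)).ncard ≤ (Lm R O π 0).ncard := fun m =>
      Set.ncard_le_ncard (hsub m) (hfin 0).1
    set B := c * (Lm R O π 0).ncard with hB
    have h5 := (hc B).trans (Nat.mul_le_mul_left c (hle B))
    have h6 : B < qq O ^ (B + 1) := by
      calc B < 2 ^ B := Nat.lt_two_pow_self
        _ ≤ 2 ^ (B + 1) := Nat.pow_le_pow_right (by norm_num) (by omega)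
        _ ≤ qq O ^ (B + 1) := Nat.pow_le_pow_left (by omega) _
    omega
  -- large levels are full
  obtain ⟨l, hl⟩ := hC (qq O) c s (by omega) hs
  set N : ℕ → ℕ := fun m => (LI R O π ⊤ (m : ℤ)).ncard with hN
  have hN' : ∀ m : ℕ, N m = (Lm R O π (m : ℤ)).ncard := fun m => by
    show (LI R O π ⊤ (m : ℤ)).ncard = _
    rw [LI_top]
  have hcast : ∀ m : ℕ, ((m + 1 : ℕ) : ℤ) - 1 = (m : ℤ) := fun m => by push_cast; ring
  have hfull : ∀ m : ℕ, l ≤ m → Full R O π ⊤ (m : ℤ) := by
    intro m hm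
    refine hl N (fun m => Full R O π ⊤ (m : ℤ)) 0 1 one_pos ?_ ?_ ?_ ?_ ?_ m (by omega)
    · intro m _
      rw [mul_one, hN']
      exact (Nat.pow_le_pow_right (by omega) (by omega)).trans (hc m)
    · intro m _
      rw [one_mul, hN']
      refine (hfin m).2.trans (le_of_eq ?_)
      congr 1
    · intro m
      have := (hS' ⊤ ((m + 1 : ℕ) : ℤ)).1
      rw [hcast] at this
      exact this
    · intro m hm
      have := (hS' ⊤ ((m + 1 : ℕ) : ℤ)).2.2 hm
      rw [hcast] at this
      exact this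
    · intro m hm
      have := hF R K O π hG ⊤ (m : ℤ) (s : ℤ) t ht0 (by simpa using ht1) (by simpa using ht2) hm
      show Full R O π ⊤ ((m + s : ℕ) : ℤ)
      push_cast
      exact this
  have hstep : ∀ m : ℕ, l ≤ m → N (m + 1) = qq O * N m := by
    intro m hm
    have := (hS' ⊤ ((m + 1 : ℕ) : ℤ)).2.1.mp (hfull (m + 1) (by omega))
    rw [hcast] at this
    exact this
  have hpow : ∀ (k m : ℕ), l ≤ m → N (m + k) = qq O ^ k * N m := by
    intro k
    induction k with
    | zero => intro m _; simp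
    | succ k ih =>
      intro m hm
      rw [← add_assoc, hstep (m + k) (by omega), ih m hm, pow_succ]
      ring
  -- representatives
  have hspan : Ideal.span {a} ≠ ⊥ := by
    rw [Ne, Ideal.span_singleton_eq_bot]; exact ha
  have := hG.fin _ hspan
  have := Fintype.ofFinite (R ⧸ Ideal.span {a})
  choose lev hlev using hall
  set M : ℕ := l + ∑ x : R ⧸ Ideal.span {a}, lev (Quotient.out x) with hM
  have hrep : ∀ x : R ⧸ Ideal.span {a}, Quotient.out x ∈ Lm R O π ((M + n : ℕ) : ℤ) := by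
    intro x
    refine mono hG ?_ (hlev (Quotient.out x))
    have : lev (Quotient.out x) ≤ ∑ x : R ⧸ Ideal.span {a}, lev (Quotient.out x) :=
      Finset.single_le_sum (f := fun x : R ⧸ Ideal.span {a} => lev (Quotient.out x))
        (fun _ _ => Nat.zero_le _) (Finset.mem_univ x)
    have h7 : lev (Quotient.out x) ≤ M + n := by omega
    exact_mod_cast h7
  -- the homomorphism
  set f : Lg hG ((M + n : ℕ) : ℤ) →+ R ⧸ Ideal.span {a} :=
    ((Ideal.Quotient.mk (Ideal.span {a})).toAddMonoidHom).comp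
      (Lg hG ((M + n : ℕ) : ℤ)).subtype with hf
  have hfv : ∀ x : Lg hG ((M + n : ℕ) : ℤ), f x = Ideal.Quotient.mk _ (x : R) := fun x => rfl
  have hsurj : Function.Surjective f := by
    intro x
    refine ⟨⟨Quotient.out x, hrep x⟩, ?_⟩
    rw [hfv]
    exact Quotient.out_eq x
  have hker : Nat.card f.ker = N M := by
    rw [hN', ← Nat.card_coe_set_eq]
    have hmem : ∀ b : R, b ∈ Lm R O π (M : ℤ) ↔ a * b ∈ Lm R O π ((M + n : ℕ) : ℤ) := by
      intro b
      have e : algebraMap R K (a * b) * π ^ ((M + n : ℕ) : ℤ) =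
          (algebraMap R K a * π ^ n) * (algebraMap R K b * π ^ (M : ℤ)) := by
        rw [map_mul]; push_cast; rw [zpow_add₀ hG.pi_ne, zpow_natCast, zpow_natCast]; ring
      constructor
      · intro hb
        show _ ∈ O
        rw [e]; exact mul_mem h1 hb
      · intro hb
        have hb' : algebraMap R K (a * b) * π ^ ((M + n : ℕ) : ℤ) ∈ O := hb
        rw [e] at hb'
        have hne : algebraMap R K a * π ^ n ≠ 0 := by
          refine mul_ne_zero ?_ (pow_ne_zero _ hG.pi_ne)
          rw [Ne, FaithfulSMul.algebraMap_eq_zero_iff]; exact ha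
        have := mul_mem h2 hb'
        rw [← mul_assoc, inv_mul_cancel₀ hne, one_mul] at this
        exact this
    symm
    refine Nat.card_congr (Equiv.ofBijective (fun b : Lm R O π (M : ℤ) =>
      (⟨⟨a * (b : R), (hmem b).mp b.2⟩, ?_⟩ : f.ker)) ⟨?_, ?_⟩)
    · rw [AddMonoidHom.mem_ker, hfv, Ideal.Quotient.eq_zero_iff_mem]
      exact Ideal.mul_mem_right _ _ (Ideal.mem_span_singleton_self a)
    · intro b b' hbb
      have h8 := Subtype.ext_iff.mp (Subtype.ext_iff.mp hbb)
      exact Subtype.ext (mul_left_cancel₀ ha h8)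
    · rintro ⟨⟨x, hx⟩, hxk⟩
      rw [AddMonoidHom.mem_ker, hfv, Ideal.Quotient.eq_zero_iff_mem,
        Ideal.mem_span_singleton] at hxk
      obtain ⟨b, hb⟩ := hxk
      have hb' : x = a * b := hb
      refine ⟨⟨b, (hmem b).mpr (hb' ▸ hx)⟩, ?_⟩
      apply Subtype.ext
      apply Subtype.ext
      exact hb'.symm
  have hcard : Nat.card f.ker * Nat.card (R ⧸ Ideal.span {a}) =
      Nat.card (Lg hG ((M + n : ℕ) : ℤ)) := by
    have e1 := AddSubgroup.card_mul_index f.ker
    rw [AddSubgroup.index_ker, AddMonoidHom.range_eq_top.mpr hsurj] at e1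
    rw [← e1]
    congr 1
    exact (Nat.card_congr (AddSubgroup.topEquiv (G := R ⧸ Ideal.span {a})).toEquiv).symm
  have hLg : Nat.card (Lg hG ((M + n : ℕ) : ℤ)) = N (M + n) := by
    rw [hN', ← Nat.card_coe_set_eq]; rfl
  rw [hker, hLg, hpow n M (by omega), mul_comm] at hcard
  have hpos : 0 < N M := by
    rw [hN', Set.ncard_pos (hfin M).1]
    exact ⟨0, (Lg hG M).zero_mem⟩
  exact Nat.eq_of_mul_eq_mul_right hpos hcard

end Pool.T1
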