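import Pool.Agent.H14.T1.S3
import Pool.Agent.H81.TOW.K1

/-!
# T1, module IPV: `IP P` and `Iinf F` are discrete valuation rings
-/

set_option autoImplicit false

namespace Pool.T1

open Polynomial Pool.HYP Pool.TOW Pool.AVS IsDedekindDomain Pool.Agent.H16.AV3B

namespace IPVaux

private theorem unif_of {L : Type} [Field L] {O : ValuationSubring L} {π : L} (h0 : π ≠ 0)
    (h : ∀ x : L, x ∈ O → x ≠ 0 → (x⁻¹ ∉ O ↔ x / π ∈ O)) (hm : π ∈ O) : Unif O π := by
  refine ⟨h0, hm, ?_, fun z hz hz' => ?_⟩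
  · rw [h π hm h0, div_self h0]; exact one_mem O
  · by_cases hz0 : z = 0
    · rw [hz0, zero_div]; exact zero_mem O
    · exact (h z hz hz0).mp hz'

end IPVaux

open IPVaux in
/-- IPV. -/
theorem ipv : IPVStmt := by
  intro F _
  refine ⟨fun P _ hP => ?_, ?_⟩
  · have hl := UD.locW (F := F) hP
    refine ⟨VP P hP, rfl, unif_of hl.pi_ne hl.unif hl.pi_mem, fun x hx => ?_⟩
    obtain ⟨n, h1, h2⟩ := hl.arch x hx
    exact ⟨n, div_ne_zero hx (zpow_ne_zero _ hl.pi_ne), h1, h2⟩
  · obtain ⟨⟨O, hO⟩, hX, hu⟩ := dv_inf F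
    have hmem : ∀ x : RatFunc F, x ∈ O ↔ x.intDegree ≤ 0 := by
      intro x
      have h1 : x ∈ (O : Set (RatFunc F)) ↔ x ∈ AVS.Iinf F := by rw [hO]
      exact h1
    have hX0 : (RatFunc.X : RatFunc F) ≠ 0 := RatFunc.X_ne_zero
    have hXm : (RatFunc.X : RatFunc F)⁻¹ ∈ O := by
      rw [hmem, RatFunc.intDegree_inv, RatFunc.intDegree_X]; norm_num
    have hpow : ∀ n : ℤ, (RatFunc.X ^ n : RatFunc F).intDegree = n := by
      have hnat : ∀ n : ℕ, (RatFunc.X ^ n : RatFunc F).intDegree = n := by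
        intro n
        induction n with
        | zero => simp
        | succ n ih =>
          rw [pow_succ, RatFunc.intDegree_mul (pow_ne_zero _ hX0) hX0, ih, RatFunc.intDegree_X]
          push_cast; ring
      intro n
      rcases n with n | n
      · simpa using hnat n
      · rw [zpow_negSucc, RatFunc.intDegree_inv, hnat]
        push_cast
        omega
    refine ⟨O, hO, unif_of hX (fun x hx hx0 => ?_) hXm, fun x hx => ?_⟩
    · have := hu x (by rw [← hO]; exact hx) hx0
      rw [← hO] at this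
      exact this
    · refine ⟨-x.intDegree, mul_ne_zero hx (zpow_ne_zero _ hX0), ?_, ?_⟩
      · show _ ∈ O
        rw [hmem, RatFunc.intDegree_mul hx (zpow_ne_zero _ hX0), hpow]
        omega
      · show _ ∈ O
        rw [hmem, RatFunc.intDegree_inv, RatFunc.intDegree_mul hx (zpow_ne_zero _ hX0), hpow]
        omega

end Pool.T1
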