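import Pool.Agent.H29.T1.S2
import Pool.Agent.H74.HYP.UNR
import Pool.Agent.H70.HYP.NMU

/-!
# T1, module IRUK: the classes at a prime where `f` is irreducible of odd degree
-/

set_option autoImplicit false

namespace Pool.T1

open Polynomial Pool.HYP Pool.TOW Pool.AVS IsDedekindDomain

namespace IRUKaux

private theorem norm_C {L : Type} [Field L] (f : L[X]) (hf : f.Monic) (a : L) :
    Algebra.norm L (AdjoinRoot.mk f (C a)) = a ^ f.natDegree := by
  rw [AdjoinRoot.mk_C, ← AdjoinRoot.algebraMap_eq,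
    Algebra.norm_algebraMap_of_basis (AdjoinRoot.powerBasis' hf).basis, Fintype.card_fin,
    AdjoinRoot.powerBasis'_dim]

private theorem norm_congr {L : Type} [Field L] (f a b : L[X]) (h : f ∣ a - b) :
    AdjoinRoot.mk f a = AdjoinRoot.mk f b := by
  rw [AdjoinRoot.mk_eq_mk]; exact h

/-- An even power of `π` times a unit. -/
private theorem even_of_sq {L : Type} [Field L] {O : ValuationSubring L} {π : L}
    (hl : Loc L O π) {m : ℤ} {u : L} (hu : UI (O : Set L) u) (hs : IsSquare (π ^ m * u)) :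
    Even m := by
  obtain ⟨z, hz⟩ := hs
  have hπ := hl.pi_ne
  have hz0 : z ≠ 0 := by
    rintro rfl
    rw [mul_zero] at hz
    exact (mul_ne_zero (zpow_ne_zero _ hπ) hu.1) hz
  obtain ⟨k, h1, h2⟩ := hl.arch z hz0
  -- `π ^ (m - 2 k)` is a unit
  set v : L := z / π ^ k with hv
  have hv0 : v ≠ 0 := div_ne_zero hz0 (zpow_ne_zero _ hπ)
  have hzv : z = v * π ^ k := by rw [hv, div_mul_cancel₀ _ (zpow_ne_zero _ hπ)]
  have hid : π ^ (m - (k + k)) = v * v * u⁻¹ := by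
    rw [zpow_sub₀ hπ, zpow_add₀ hπ]
    have hu0 := hu.1
    have hk : π ^ k ≠ 0 := zpow_ne_zero _ hπ
    rw [hzv] at hz
    rw [div_eq_iff (mul_ne_zero hk hk)]
    have : π ^ m = (v * π ^ k * (v * π ^ k)) * u⁻¹ := by rw [← hz, mul_assoc, mul_inv_cancel₀ hu0, mul_one]
    rw [this]; ring
  have hmem1 : π ^ (m - (k + k)) ∈ O := by
    rw [hid]; exact mul_mem (mul_mem h1 h1) hu.2.2
  have hmem2 : (π ^ (m - (k + k)))⁻¹ ∈ O := by
    rw [hid, mul_inv, mul_inv, inv_inv]; exact mul_mem (mul_mem h2 h2) hu.2.1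
  have hpi : π⁻¹ ∉ O := by
    rw [hl.unif π hl.pi_mem hπ, div_self hπ]; exact one_mem O
  have hpow : ∀ j : ℕ, (π ^ (j + 1))⁻¹ ∉ O := by
    intro j hj
    apply hpi
    have : π⁻¹ = (π ^ (j + 1))⁻¹ * π ^ j := by
      rw [pow_succ, mul_inv, mul_comm (π ^ j)⁻¹, mul_assoc, inv_mul_cancel₀ (pow_ne_zero _ hπ),
        mul_one]
    rw [this]
    exact mul_mem hj (pow_mem hl.pi_mem j)
  rcases lt_trichotomy (m - (k + k)) 0 with h | h | h
  · obtain ⟨j, hj⟩ := Int.eq_ofNat_of_zero_le (a := -(m - (k + k)) - 1) (by omega)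
    have e : m - (k + k) = -((j + 1 : ℕ) : ℤ) := by push_cast; omega
    rw [e, zpow_neg, zpow_natCast] at hmem1
    exact absurd hmem1 (hpow j)
  · exact ⟨k, by omega⟩
  · obtain ⟨j, hj⟩ := Int.eq_ofNat_of_zero_le (a := (m - (k + k)) - 1) (by omega)
    have e : m - (k + k) = ((j + 1 : ℕ) : ℤ) := by push_cast; omega
    rw [e, zpow_natCast] at hmem2
    exact absurd hmem2 (hpow j)

end IRUKaux

open IRUKaux in
/-- IRUK. -/
theorem iruk (hI : INOKStmt) : IRUKStmt := by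
  intro R _ _ K _ _ _ P ϖ L _ O' ι hC g f ρ α hf hfd hρ hz hcop hN
  obtain ⟨fO, hm, hd, ho, -, -, h3, h4, -⟩ := hI R K P ϖ L O' ι hC f hf
  have hirr : Irreducible (rd O' fO) := h3 ρ (2 * g + 1) hρ hz
  rw [← h4 α hcop]
  set π : L := ι (algebraMap R K ϖ) with hπd
  have hl : Loc L O' π := hC.loc
  have hπ := hl.pi_ne
  have hoM : (oL O' fO).Monic := hm.map _
  have hoD : (oL O' fO).natDegree = 2 * g + 1 := by
    rw [hm.natDegree_map, hd, hfd]
  have hcop' : IsCoprime (α.map ι) (oL O' fO) := by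
    rw [ho]; exact hcop.map (mapRingHom ι)
  have hnd : ¬ oL O' fO ∣ α.map ι := by
    intro h
    have hu : IsUnit (oL O' fO) := hcop'.isUnit_of_dvd' h dvd_rfl
    have := natDegree_eq_zero_of_isUnit hu
    omega
  obtain ⟨hU1, -, hU3, -⟩ := unr L O' π hl fO hm hirr
  obtain ⟨n, p, hp, hdv⟩ := hU1 (α.map ι) hnd
  -- the norm
  have hsq : IsSquare (Algebra.norm L (AdjoinRoot.mk (oL O' fO) (α.map ι))) := by
    rw [ho, nmu.2.2.2 K L ι (fk K f) α (hf.map _)]
    exact hN.map ι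
  have hnorm : Algebra.norm L (AdjoinRoot.mk (oL O' fO) (α.map ι)) =
      π ^ (n * (2 * g + 1 : ℕ)) * Algebra.norm L (AdjoinRoot.mk (oL O' fO) (oL O' p)) := by
    rw [norm_congr _ _ _ hdv, map_mul, map_mul, norm_C _ hoM, hoD, zpow_mul, zpow_natCast]
  rw [hnorm] at hsq
  have hev := even_of_sq hl (hU3 p hp) hsq
  have hn : Even n := by
    rw [Int.even_mul] at hev
    rcases hev with h | h
    · exact h
    · exfalso
      rw [Int.even_coe_nat] at h
      exact (Nat.not_even_iff_odd.mpr ⟨g, rfl⟩) h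
  obtain ⟨j, hj⟩ := hn
  refine ⟨C (π ^ (-j)), p, ?_, ?_, hp⟩
  · have hu : IsUnit (C (π ^ (-j)) : L[X]) :=
      isUnit_C.mpr (IsUnit.mk0 _ (zpow_ne_zero _ hπ))
    obtain ⟨v, hv⟩ := hu.exists_left_inv
    exact ⟨v, 0, by rw [hv, zero_mul, add_zero]⟩
  · have e : α.map ι * (C (π ^ (-j))) ^ 2 - oL O' p =
        (C (π ^ (-j))) ^ 2 * (α.map ι - C (π ^ n) * oL O' p) := by
      have e1 : (C (π ^ (-j)) : L[X]) ^ 2 * C (π ^ n) = 1 := by
        rw [← C_pow, ← C_mul, ← C_1]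
        congr 1
        rw [pow_two, ← zpow_add₀ hπ, ← zpow_add₀ hπ, hj]
        have : -j + -j + (j + j) = 0 := by ring
        rw [this, zpow_zero]
      have e2 : (C (π ^ (-j))) ^ 2 * (α.map ι - C (π ^ n) * oL O' p) =
          α.map ι * (C (π ^ (-j))) ^ 2 - ((C (π ^ (-j)) : L[X]) ^ 2 * C (π ^ n)) * oL O' p := by
        ring
      rw [e2, e1, one_mul]
    rw [e]
    exact Dvd.dvd.mul_left hdv _

end Pool.T1
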